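import Pool.Agent.P.MP_2bb7c6_lc.Defs

/-! Colourings of sequences. -/

set_option autoImplicit false

namespace Pool.Agent.P.MP_2bb7c6_lc

open Cardinal Set Filter

universe u

/-- The theorem of Erdős and Hajnal. -/
theorem jon (T : Type u) [Nonempty T] : ∃ J : ℕ → (ℕ → T) → T,
    ∀ S : Set T, #S = #T → ∀ t, ∃ n x, (∀ i, x i ∈ S) ∧ J n x = t := by
  let s : Setoid (ℕ → T) := Filter.germSetoid atTop T
  let rep : (ℕ → T) → ℕ → T := fun x => (Quotient.mk s x).out
  have key : ∃ S0 : Set T, #S0 = #T ∧ ∀ S ⊆ S0, #S = #T → ∀ a ∈ S0,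
      ∃ n x, (∀ i, x i ∈ S) ∧ rep x n = a := by
    by_contra h
    push Not at h
    choose F hF1 hF2 a ha1 ha2 using h
    let G : {S : Set T // #S = #T} → {S : Set T // #S = #T} := fun S => ⟨F S.1 S.2, hF2 _ _⟩
    let S : ℕ → {S : Set T // #S = #T} := fun n => G^[n] ⟨Set.univ, mk_univ⟩
    have hS : ∀ n, S (n + 1) = G (S n) := fun n => Function.iterate_succ_apply' _ _ _
    have anti : Antitone fun n => (S n).1 := antitone_nat_of_succ_le fun n => by
      rw [hS]
      exact hF1 _ _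
    let y : ℕ → T := fun n => a (S n).1 (S n).2
    have h1 : rep y =ᶠ[atTop] y := Quotient.exact (Quotient.out_eq (Quotient.mk s y))
    obtain ⟨N, hN⟩ := eventually_atTop.1 h1
    have h2 : (fun k => y (max k (N + 1))) =ᶠ[atTop] y :=
      eventually_atTop.2 ⟨N + 1, fun k hk => by simp only [max_eq_left hk]⟩
    have h3 : rep (fun k => y (max k (N + 1))) = rep y :=
      congrArg Quotient.out (Quotient.sound (s := s) h2)
    refine ha2 (S N).1 (S N).2 N (fun k => y (max k (N + 1))) (fun i => ?_) ?_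
    · have := anti (le_max_right i (N + 1)) (ha1 (S _).1 (S _).2)
      simpa only [hS] using this
    · rw [h3]
      exact hN N le_rfl
  obtain ⟨S0, h0, h1⟩ := key
  obtain ⟨e⟩ := Cardinal.eq.1 h0.symm
  have he : Function.Injective fun t => (e t : T) := Subtype.val_injective.comp e.injective
  refine ⟨fun n x => Function.invFun (fun t => (e t : T)) (rep (fun i => (e (x i) : T)) n),
    fun S hS t => ?_⟩
  obtain ⟨n, x, hx, hr⟩ := h1 ((fun t => (e t : T)) '' S) (by rintro _ ⟨t, -, rfl⟩; exact (e t).2)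
    ((mk_image_eq he).trans hS) (e t) (e t).2
  choose x' hx1 hx2 using hx
  refine ⟨n, x', hx1, ?_⟩
  have : (fun i => (e (x' i) : T)) = x := funext hx2
  simp only [this, hr]
  exact Function.leftInverse_invFun he t

theorem inj_sel {ι X : Type u} (S : ι → Set X) (h : ∀ i, #ι ≤ #(S i)) :
    ∃ φ : ι → X, Function.Injective φ ∧ ∀ i, φ i ∈ S i := by
  obtain ⟨r, wo, hr⟩ := exists_ord_eq ι
  have ex : ∀ (i : ι) (g : ∀ j, r j i → X), ∃ x ∈ S i, ∀ j hj, g j hj ≠ x := by
    intro i g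
    by_contra hc
    push Not at hc
    have h1 : S i ⊆ range fun j : {j // r j i} => g j.1 j.2 := fun x hx =>
      let ⟨j, hj, e⟩ := hc x hx
      ⟨⟨j, hj⟩, e⟩
    exact ((h i).trans ((mk_le_mk_of_subset h1).trans mk_range_le)).not_gt
      (card_typein_lt (r := r) i hr)
  choose F hF1 hF2 using ex
  let φ : ι → X := wo.wf.fix F
  have hφ : ∀ i, φ i = F i fun j _ => φ j := fun i => wo.wf.fix_eq F i
  refine ⟨φ, fun i j e => ?_, fun i => hφ i ▸ hF1 _ _⟩
  rcases trichotomous_of r i j with h1 | h1 | h1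
  · exact absurd (e.trans (hφ j)) (hF2 j (fun j _ => φ j) i h1)
  · exact h1
  · exact absurd (e.symm.trans (hφ i)) (hF2 i (fun j _ => φ j) j h1)

theorem col_nat : ∃ c : Set ℕ → ℕ → ℕ, ∀ W : Set ℕ, W.Infinite → ∀ r,
    ∃ w ⊆ W, w.Infinite ∧ c w = r := by
  obtain ⟨φ, h1, h2⟩ := inj_sel (ι := {W : Set ℕ // W.Infinite} × (ℕ → ℕ))
    (fun p => {w | w ⊆ p.1.1 ∧ w.Infinite}) (by
      rintro ⟨⟨W, hW⟩, r⟩
      have a1 : #({W : Set ℕ // W.Infinite} × (ℕ → ℕ)) ≤ #(Set ℕ) := by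
        have b1 : #{W : Set ℕ // W.Infinite} ≤ 𝔠 := (mk_subtype_le _).trans (by simp)
        have b2 : #(ℕ → ℕ) = 𝔠 := by simp
        rw [mk_prod, lift_id, lift_id, b2]
        exact (mul_le_mul_left b1 _).trans (by simp)
      refine a1.trans ?_
      let e := hW.natEmbedding
      have he : Function.Injective fun n => (e n : ℕ) := Subtype.val_injective.comp e.injective
      refine mk_le_of_injective (f := fun s : Set ℕ =>
        (⟨(fun n => (e n : ℕ)) '' {n | n % 2 = 1 ∨ n / 2 ∈ s}, ?_, ?_⟩ :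
          {w : Set ℕ | w ⊆ W ∧ w.Infinite})) fun s t hst => ?_
      · rintro _ ⟨n, -, rfl⟩
        exact (e n).2
      · refine Infinite.image he.injOn (infinite_of_injective_forall_mem
          (f := fun n => 2 * n + 1) (fun a b hab => by simpa using hab) fun n => Or.inl ?_)
        omega
      · have h3 := he.image_injective (congrArg Subtype.val hst)
        ext n
        have h4 := Set.ext_iff.1 h3 (2 * n)
        simpa using h4)
  have : Nonempty {W : Set ℕ // W.Infinite} := ⟨⟨Set.univ, infinite_univ⟩⟩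
  refine ⟨fun w => (Function.invFun φ w).2, fun W hW r => ⟨φ (⟨W, hW⟩, r), (h2 _).1, (h2 _).2, ?_⟩⟩
  simp only [Function.leftInverse_invFun h1 (⟨W, hW⟩, r)]

/-- All real colours occur below every infinite set. -/
theorem col (X : Type u) : ∃ c : Set X → ℕ → ℕ, ∀ W : Set X, W.Infinite → ∀ r,
    ∃ w ⊆ W, w.Infinite ∧ c w = r := by
  classical
  obtain ⟨c0, hc0⟩ := col_nat
  obtain ⟨M, hM⟩ := zorn_subset {M : Set (Set X) | (∀ B ∈ M, ∃ e : ℕ → X,
      Function.Injective e ∧ range e = B) ∧ M.Pairwise fun B B' => (B ∩ B').Finite} (by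
    intro c hc hch
    refine ⟨⋃₀ c, ⟨?_, ?_⟩, fun s hs => subset_sUnion_of_mem hs⟩
    · rintro B ⟨s, hs, hB⟩
      exact (hc hs).1 B hB
    · rintro B ⟨s, hs, hB⟩ B' ⟨t, ht, hB'⟩ hne
      rcases hch.total hs ht with h | h
      · exact (hc ht).2 (h hB) hB' hne
      · exact (hc hs).2 hB (h hB') hne)
  choose e he1 he2 using hM.prop.1
  refine ⟨fun w => if h : ∃ B ∈ M, w ⊆ B then c0 (e h.choose h.choose_spec.1 ⁻¹' w) else 0,
    fun W hW r => ?_⟩
  have ex : ∃ B ∈ M, (W ∩ B).Infinite := by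
    by_contra hc
    push Not at hc
    let f := hW.natEmbedding
    have hf : Function.Injective fun n => (f n : X) := Subtype.val_injective.comp f.injective
    have hsub : (range fun n => (f n : X)) ⊆ W := by
      rintro _ ⟨n, rfl⟩
      exact (f n).2
    have h1 : insert (range fun n => (f n : X)) M ⊆ M := by
      refine hM.le_of_ge (y := insert _ M) ⟨?_, ?_⟩ (subset_insert _ _)
      · rintro B (rfl | hB)
        · exact ⟨_, hf, rfl⟩
        · exact ⟨_, he1 B hB, he2 B hB⟩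
      · refine hM.prop.2.insert fun B hB _ => ⟨?_, ?_⟩
        · exact (hc B hB).subset (inter_subset_inter_left _ hsub)
        · exact (hc B hB).subset fun x hx => ⟨hsub hx.2, hx.1⟩
    exact infinite_range_of_injective hf
      ((hc _ (h1 (mem_insert _ _))).subset fun x hx => ⟨hsub hx, hx⟩)
  obtain ⟨B, hB, hWB⟩ := ex
  have h1 : (e B hB ⁻¹' W).Infinite := by
    intro hf
    refine hWB ((hf.image (e B hB)).subset ?_)
    rintro x ⟨hx, hxB⟩
    rw [← he2 B hB] at hxB
    obtain ⟨n, rfl⟩ := hxB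
    exact ⟨n, hx, rfl⟩
  obtain ⟨w, hw1, hw2, hw3⟩ := hc0 _ h1 r
  have h2 : (e B hB '' w).Infinite := hw2.image (he1 B hB).injOn
  have h3 : e B hB '' w ⊆ B := (image_subset_range _ _).trans (he2 B hB).le
  have h4 : ∃ B' ∈ M, e B hB '' w ⊆ B' := ⟨B, hB, h3⟩
  refine ⟨e B hB '' w, image_subset_iff.2 hw1, h2, ?_⟩
  have h5 : ∀ B' (hB' : B' ∈ M), e B hB '' w ⊆ B' → c0 (e B' hB' ⁻¹' (e B hB '' w)) = r := by
    intro B' hB' h6
    have : B = B' := by
      by_contra hne
      exact h2 ((hM.prop.2 hB hB' hne).subset (subset_inter h3 h6))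
    subst this
    rw [(he1 B hB).preimage_image, hw3]
  simp only [dif_pos h4]
  exact h5 _ _ h4.choose_spec.2

section order

variable {X : Type u} [LinearOrder X]

theorem seg (hX : ∀ c : X, #(Iic c) < #X) (h0 : ℵ₀ < #X) {A : Set X} (hA : #A = #X)
    {k : Cardinal.{u}} (hk : k < #X) (c : X) : ∃ c', k ≤ #(A ∩ Ioc c c' : Set X) := by
  have h1 : #(A ∩ Ioi c : Set X) = #X := by
    refine le_antisymm (mk_set_le _) (not_lt.1 fun h => ?_)
    have : A ⊆ Iic c ∪ A ∩ Ioi c := fun x hx => (le_or_gt x c).imp id fun h => ⟨hx, h⟩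
    exact ((mk_le_mk_of_subset this).trans (mk_union_le _ _)).not_gt
      (hA ▸ add_lt_of_lt h0.le (hX c) h)
  have h2 : max k ℵ₀ < #X := max_lt hk h0
  obtain ⟨T, hT1, hT2⟩ := le_mk_iff_exists_subset.1 (h1 ▸ h2.le : max k ℵ₀ ≤ #(A ∩ Ioi c : Set X))
  by_contra hc
  push Not at hc
  have h3 : A ∩ Ioi c ⊆ ⋃ t : T, A ∩ Ioc c t := by
    intro x hx
    by_contra h4
    have h5 : T ⊆ A ∩ Ioc c x := fun t ht => ⟨(hT1 ht).1, (hT1 ht).2, not_lt.1 fun h =>
      h4 (mem_iUnion.2 ⟨⟨t, ht⟩, hx.1, hx.2, h.le⟩)⟩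
    exact ((le_max_left _ _).trans (hT2 ▸ mk_le_mk_of_subset h5)).not_gt (hc x)
  have h4 : #(⋃ t : T, A ∩ Ioc c t : Set X) ≤ max k ℵ₀ * max k ℵ₀ :=
    (mk_iUnion_le _).trans (mul_le_mul' hT2.le
      (ciSup_le' fun t => (hc t).le.trans (le_max_left _ _)))
  rw [mul_eq_self (le_max_right _ _)] at h4
  exact ((h1 ▸ mk_le_mk_of_subset h3).trans h4).not_gt h2

theorem seq_above [WellFoundedLT X] (hX : ∀ c : X, #(Iic c) < #X) (h0 : ℵ₀ < #X) {A : Set X}
    (hA : #A = #X) (c : X) : ∃ (c' : X) (u : ℕ → X), StrictMono u ∧ ∀ n, u n ∈ A ∩ Ioc c c' := by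
  obtain ⟨c', h⟩ := seg hX h0 hA h0 c
  have h1 : (A ∩ Ioc c c').Infinite := infinite_coe_iff.1 (aleph0_le_mk_iff.1 h)
  let f := h1.natEmbedding
  have hf : Function.Injective fun n => (f n : X) := Subtype.val_injective.comp f.injective
  obtain ⟨g, hg⟩ := (Set.IsPWO.of_linearOrder (Set.univ : Set X)).exists_monotone_subseq
    (f := fun n => (f n : X)) fun _ => mem_univ _
  exact ⟨c', fun n => f (g n), hg.strictMono_of_injective (hf.comp g.injective),
    fun n => (f (g n)).2⟩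

/-- One colour of `B'` is omitted, for colourings of bounded sequences with a real parameter. -/
def SO (X : Type u) [LinearOrder X] {B : Type u} (B' : Set B) : Prop :=
  ∀ F : (ℕ → ℕ) → (ℕ → X) → B, ∃ A : Set X, #A = #X ∧ ∃ b ∈ B',
    ∀ r x, (∀ i, x i ∈ A) → BddAbove (range x) → F r x ≠ b

theorem dec [WellFoundedLT X] (hX : ∀ c : X, #(Iic c) < #X) (h0 : ℵ₀ < #X) {B : Type u}
    (h : ∀ f : Set X → B, ∃ A : Set X, #A = #X ∧ f '' Bd A ≠ Set.univ) : SO X (Set.univ : Set B) := by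
  intro F
  obtain ⟨c, hc⟩ := col X
  have : Nonempty X := mk_ne_zero_iff.1 (aleph0_pos.trans h0).ne'
  have ex : ∀ y : Set X, ∃ e : ℕ → X, y.Countable → y ⊆ range e := by
    intro y
    by_cases hy : y.Countable
    · obtain ⟨e, he⟩ := countable_iff_exists_subset_range.1 hy
      exact ⟨e, fun _ => he⟩
    · exact ⟨fun _ => Classical.arbitrary X, fun h => absurd h hy⟩
  choose e he using ex
  let top : Set X → Set X := fun S => {p ∈ S | ∀ q ∈ S, (S ∩ Icc p q).Finite}
  obtain ⟨A, hA, hb⟩ := h fun S => F (fun n => c (top S) (2 * n + 1))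
    fun n => e (S \ top S) (c (top S) (2 * n))
  obtain ⟨b, hb⟩ := (ne_univ_iff_exists_notMem _).1 hb
  refine ⟨A, hA, b, mem_univ _, fun r x hx ⟨c0, hc0⟩ hF => hb ?_⟩
  obtain ⟨c1, u, hu, hu'⟩ := seq_above hX h0 hA c0
  obtain ⟨c2, v, hv, hv'⟩ := seq_above hX h0 hA c1
  have hy : (range x ∪ range u).Countable := (countable_range x).union (countable_range u)
  have hy1 : ∀ p ∈ range x ∪ range u, p ≤ c1 := by
    rintro _ (⟨n, rfl⟩ | ⟨n, rfl⟩)
    · exact (hc0 ⟨n, rfl⟩).trans ((hu' 0).2.1.le.trans (hu' 0).2.2)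
    · exact (hu' n).2.2
  choose s hs using fun n => he _ hy (Or.inl ⟨n, rfl⟩ : x n ∈ range x ∪ range u)
  obtain ⟨w, hw1, hw2, hw3⟩ := hc (range v) (infinite_range_of_injective hv.injective)
    fun n => if n % 2 = 0 then s (n / 2) else r (n / 2)
  have hw4 : ∀ p ∈ w, c1 < p := fun p hp => by
    obtain ⟨n, rfl⟩ := hw1 hp
    exact (hv' n).2.1
  have ht : top (range x ∪ range u ∪ w) = w := by
    refine Subset.antisymm ?_ fun p hp => ⟨Or.inr hp, fun q hq => ?_⟩
    · rintro p ⟨hp | hp, hp'⟩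
      · exfalso
        obtain ⟨q, hq⟩ := hw2.nonempty
        obtain ⟨m, hm⟩ : ∃ m, p ≤ u m := by
          rcases hp with hp | ⟨m, rfl⟩
          · exact ⟨0, (hc0 hp).trans (hu' 0).2.1.le⟩
          · exact ⟨m, le_rfl⟩
        refine infinite_of_injective_forall_mem (f := fun n => u (m + n))
          (hu.injective.comp (add_right_injective m)) (fun n => ?_) (hp' q (Or.inr hq))
        exact ⟨Or.inl (Or.inr ⟨_, rfl⟩), hm.trans (hu.monotone (Nat.le_add_right _ _)),
          (hu' _).2.2.trans (hw4 q hq).le⟩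
      · exact hp
    · rcases hq with hq | hq
      · rw [Icc_eq_empty ((hy1 q hq).trans_lt (hw4 p hp)).not_ge, inter_empty]
        exact finite_empty
      · obtain ⟨m, rfl⟩ := hw1 hq
        refine ((finite_Iic m).image v).subset ?_
        rintro z ⟨hz | hz, hz1, hz2⟩
        · exact absurd ((hw4 p hp).trans_le hz1) (hy1 z hz).not_gt
        · obtain ⟨n, rfl⟩ := hw1 hz
          exact ⟨n, hv.le_iff_le.1 hz2, rfl⟩
  have hd : (range x ∪ range u ∪ w) \ w = range x ∪ range u := by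
    rw [union_sdiff_right]
    exact Disjoint.sdiff_eq_left (disjoint_left.2 fun p hp hp' => (hy1 p hp).not_gt (hw4 p hp'))
  refine ⟨range x ∪ range u ∪ w, ⟨?_, hy.union ((countable_range v).mono hw1), c2, ?_⟩, ?_⟩
  · rintro p ((⟨n, rfl⟩ | ⟨n, rfl⟩) | hp)
    · exact hx n
    · exact (hu' n).1
    · obtain ⟨n, rfl⟩ := hw1 hp
      exact (hv' n).1
  · rintro p (hp | hp)
    · exact (hy1 p hp).trans ((hv' 0).2.1.le.trans (hv' 0).2.2)
    · obtain ⟨n, rfl⟩ := hw1 hp
      exact (hv' n).2.2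
  · simp only [ht, hd, hw3]
    rw [← hF]
    congr 1
    · funext n
      rw [if_neg (by omega), show (2 * n + 1) / 2 = n by omega]
    · funext n
      rw [if_pos (by omega), show 2 * n / 2 = n by omega, hs]

end order

end Pool.Agent.P.MP_2bb7c6_lc
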