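import Pool.Agent.P.MP_2bb7c6_lc.A

/-! Bounded relations and tall cardinals. -/

set_option autoImplicit false

namespace Pool.Agent.P.MP_2bb7c6_lc

open Cardinal Set Filter

universe u

/-- Sequences in `z`. -/
def Sq {Y : Type u} (z : Set Y) : Set (ℕ → Y) := {x | ∀ i, x i ∈ z}

/-- Below `r` points and for `t` colours there are `n` points with fewer than `b` colours. -/
def Rel (r n t b : Cardinal.{u}) : Prop :=
  ∀ (Y C : Type u), r ≤ #Y → #C ≤ t → ∀ g : (ℕ → Y) → C,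
    ∃ z : Set Y, n ≤ #z ∧ #(g '' Sq z) < b

theorem img_sq {Y Y0 C : Type u} (e : Y0 → Y) (g : (ℕ → Y) → C) (z : Set Y0) :
    g '' Sq (e '' z) = (fun x => g (e ∘ x)) '' Sq z := by
  refine Subset.antisymm ?_ ?_
  · rintro _ ⟨y, hy, rfl⟩
    choose x h1 h2 using hy
    exact ⟨x, h1, congrArg g (funext h2)⟩
  · rintro _ ⟨x, hx, rfl⟩
    exact ⟨e ∘ x, fun i => ⟨_, hx i, rfl⟩, rfl⟩

theorem rel_of {r n t b : Cardinal.{u}} (Y0 C0 : Type u) (hY : #Y0 ≤ r) (hC : t ≤ #C0)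
    (h : ∀ g : (ℕ → Y0) → C0, ∃ z : Set Y0, n ≤ #z ∧ #(g '' Sq z) < b) : Rel r n t b := by
  intro Y C h1 h2 g
  obtain ⟨e⟩ := (Cardinal.le_def _ _).1 (hY.trans h1)
  obtain ⟨k⟩ := (Cardinal.le_def _ _).1 (h2.trans hC)
  obtain ⟨z, a1, a2⟩ := h fun x => k (g (e ∘ x))
  refine ⟨e '' z, (mk_image_eq e.injective).symm ▸ a1, ?_⟩
  rwa [img_sq, ← mk_image_eq k.injective, image_image]

section order

variable {X : Type u} [LinearOrder X]

theorem SO.nonempty [Nonempty X] {B : Type u} [Nonempty B] {B' : Set B} (h : SO X B') :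
    B'.Nonempty :=
  let ⟨_, _, b, hb, _⟩ := h fun _ _ => Classical.arbitrary B
  ⟨b, hb⟩

theorem ex_surj {B T : Type u} {B' : Set B} (h : B'.Nonempty) (hT : #B' ≤ #T) :
    ∃ p : T → B, ∀ b ∈ B', ∃ t, p t = b := by
  obtain ⟨e⟩ := (Cardinal.le_def _ _).1 hT
  have := h.to_subtype
  exact ⟨fun t => (Function.invFun e t).1, fun b hb =>
    ⟨e ⟨b, hb⟩, congrArg Subtype.val (Function.leftInverse_invFun e.injective ⟨b, hb⟩)⟩⟩

/-- Bounded witnesses omit many colours. -/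
theorem step2 (hX : ∀ c : X, #(Iic c) < #X) (h0 : ℵ₀ < #X) {B : Type u} [Nonempty B]
    {B' : Set B} (h : SO X B') {n t : Cardinal.{u}} (hn : n < #X) (ht : #B' ≤ t) :
    ∃ r < #X, Rel r n t t := by
  have : Nonempty X := mk_ne_zero_iff.1 (aleph0_pos.trans h0).ne'
  by_contra hc
  have ex : ∀ c : X, ∃ g : (ℕ → Iic c) → t.out, ∀ z : Set (Iic c), n ≤ #z →
      t ≤ #(g '' Sq z) := by
    intro c
    by_contra h1
    push Not at h1
    exact hc ⟨_, hX c, rel_of (Iic c) t.out le_rfl (mk_out t).ge h1⟩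
  choose g hg using ex
  obtain ⟨p, hp⟩ := ex_surj (T := t.out) h.nonempty (ht.trans (mk_out t).ge)
  have : Nonempty t.out := let ⟨b, hb⟩ := h.nonempty; ⟨(hp b hb).choose⟩
  obtain ⟨J, hJ⟩ := jon t.out
  obtain ⟨A, hA, b, hb, hF⟩ := h fun r x => p (J (r 0) fun i =>
    g (x 0) fun k => ⟨min (x (Nat.pair i k + 1)) (x 0), min_le_right _ _⟩)
  obtain ⟨c1, h1⟩ := seg hX h0 hA hn (Classical.arbitrary X)
  obtain ⟨c2, h2⟩ := seg hX h0 hA h0 c1
  obtain ⟨c, hcA, hc1, -⟩ := (infinite_coe_iff.1 (aleph0_le_mk_iff.1 h2)).nonempty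
  have h3 : n ≤ #(Subtype.val ⁻¹' A : Set (Iic c)) := by
    rw [← mk_image_eq Subtype.val_injective]
    exact h1.trans (mk_le_mk_of_subset fun x hx => ⟨⟨x, hx.2.2.trans hc1.le⟩, hx.1, rfl⟩)
  obtain ⟨s, rfl⟩ := hp b hb
  obtain ⟨m, y, hy, rfl⟩ := hJ _ (le_antisymm (mk_set_le _) ((mk_out t).le.trans (hg c _ h3))) s
  choose x hx1 hx2 using hy
  refine hF (fun _ => m) (fun k => Nat.casesOn k c fun q => (x q.unpair.1 q.unpair.2).1)
    (fun k => ?_) ⟨c, ?_⟩ ?_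
  · cases k
    exacts [hcA, hx1 _ _]
  · rintro _ ⟨k, rfl⟩
    cases k
    exacts [le_rfl, (x _ _).2]
  · congr 2
    funext i
    rw [← hx2 i]
    congr 1
    funext k
    refine Subtype.ext ?_
    simp only [Nat.unpair_pair]
    exact min_eq_left (x i k).2

end order

section tall

variable {P K : Type u} {U : Ultrafilter (P → K)}

/-- The projections to small sets of coordinates are complete. -/
def Cp (U : Ultrafilter (P → K)) : Prop := ∀ a : Set P, #a < #K →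
  CardinalInterFilter (Filter.map (fun h (i : a) => h i) (U : Filter (P → K))) #K

theorem Cp.all (h : Cp U) {a : Set P} (ha : #a < #K) {ι : Type u} (hι : #ι < #K)
    (p : (a → K) → ι → Prop) (hp : ∀ i, ∀ᶠ f : P → K in U, p (fun j => f j) i) :
    ∀ᶠ f : P → K in U, ∀ i, p (fun j => f j) i := by
  have := h a ha
  exact (eventually_cardinal_forall
    (l := Filter.map (fun (h : P → K) (i : a) => h i) (U : Filter (P → K))) (p := p) hι).2 hp

theorem Cp.lim (h : Cp U) {a : Set P} (ha : #a < #K) {C : Type u} (φ : (a → K) → C)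
    (hφ : #(range φ) < #K) : ∃ c, ∀ᶠ f : P → K in U, φ (fun j => f j) = c := by
  by_contra hc
  push Not at hc
  obtain ⟨f, hf⟩ := (h.all ha hφ (fun f c => φ f ≠ c.1) fun c => hc c.1).exists
  exact hf ⟨_, _, rfl⟩ rfl

theorem Cp.strong (h : Cp U) (h2 : ∀ i j, i ≠ j → {f | f i ≠ f j} ∈ U) (h0 : ℵ₀ < #K)
    (hP : #K < #P) {c : Cardinal.{u}} (hc : c < #K) : 2 ^ c < #K := by
  by_contra hn
  obtain ⟨e⟩ : Nonempty (K ↪ Set c.out) := by
    rw [← Cardinal.le_def, mk_set, mk_out]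
    exact not_lt.1 hn
  have ex : ∀ i : P, ∃ k, ∀ᶠ f : P → K in U, f i = k := by
    intro i
    have h1 := h.all (a := {i}) (by simpa using one_lt_aleph0.trans h0) ((mk_out c).trans_lt hc)
      (fun f j => j ∈ e (f ⟨i, rfl⟩) ↔ ∀ᶠ f : P → K in U, j ∈ e (f i)) fun j => by
        by_cases hj : ∀ᶠ f : P → K in U, j ∈ e (f i)
        · exact hj.mono fun f hf => iff_of_true hf hj
        · exact (Ultrafilter.eventually_not.2 hj).mono fun f hf => iff_of_false hf hj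
    obtain ⟨f0, hf0⟩ := h1.exists
    exact ⟨f0 i, h1.mono fun f hf => e.injective (Set.ext fun j => (hf j).trans (hf0 j).symm)⟩
  choose k hk using ex
  refine hP.not_ge (mk_le_of_injective (f := k) fun i j hij => ?_)
  by_contra hne
  obtain ⟨f, a1, a2, a3⟩ := ((hk i).and ((hk j).and (h2 i j hne))).exists
  exact a3 (a1.trans (hij.trans a2.symm))

theorem pow_lt {k a b : Cardinal.{u}} (h0 : ℵ₀ < k) (hs : ∀ c < k, 2 ^ c < k) (ha : a < k)
    (hb : b < k) : a ^ b < k := by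
  refine lt_of_le_of_lt ?_ (hs _ (mul_lt_of_lt h0.le ha hb))
  rw [power_mul]
  exact power_le_power_right (cantor a).le

theorem mk_seq (Y : Type u) : #(ℕ → Y) = #Y ^ ℵ₀ := by simp

theorem Cp.limit (h : Cp U) (h0 : ℵ₀ < #K) {C : Type u} (g : (ℕ → K) → C)
    (hg : #(range g) < #K) : ∃ G : (ℕ → P) → C, ∀ x, ∀ᶠ f : P → K in U, g (f ∘ x) = G x := by
  have ex : ∀ x : ℕ → P, ∃ c, ∀ᶠ f : P → K in U, g (f ∘ x) = c := fun x =>
    h.lim (a := range x) ((countable_range x).le_aleph0.trans_lt h0)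
      (fun f => g fun n => f ⟨x n, n, rfl⟩)
      ((mk_le_mk_of_subset (by rintro _ ⟨f, rfl⟩; exact ⟨_, rfl⟩)).trans_lt hg)
  choose G hG using ex
  exact ⟨G, hG⟩

theorem Cp.inj (h : Cp U) (h2 : ∀ i j, i ≠ j → {f | f i ≠ f j} ∈ U) (h0 : ℵ₀ < #K)
    {z : Set P} (hz : #z < #K) : ∀ᶠ f : P → K in U, InjOn f z :=
  (h.all hz (ι := z × z) (by simpa using mul_lt_of_lt h0.le hz hz)
    (fun f p => f p.1 = f p.2 → p.1 = p.2) fun p => by
      by_cases e : p.1 = p.2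
      · exact Eventually.of_forall fun _ _ => e
      · exact mem_of_superset (h2 p.1 p.2 fun e' => e (Subtype.ext e'))
          fun f hf e' => absurd e' hf).mono
    fun f hf i hi j hj e => congrArg Subtype.val (hf (⟨i, hi⟩, ⟨j, hj⟩) e)

theorem Cp.sub (h : Cp U) (h0 : ℵ₀ < #K) (hs : ∀ c < #K, 2 ^ c < #K) {z : Set P} (hz : #z < #K)
    {C : Type u} {g : (ℕ → K) → C} {G : (ℕ → P) → C} (hG : ∀ x, ∀ᶠ f : P → K in U, g (f ∘ x) = G x) :
    ∀ᶠ f : P → K in U, g '' Sq (f '' z) ⊆ G '' Sq z := by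
  refine (h.all hz (ι := ℕ → z) (mk_seq z ▸ pow_lt h0 hs hz h0)
    (fun f x => g (fun n => f (x n)) = G (Subtype.val ∘ x)) fun x => hG _).mono fun f hf => ?_
  rw [img_sq]
  rintro _ ⟨x, hx, rfl⟩
  exact ⟨x, hx, (hf fun n => ⟨x n, hx n⟩).symm⟩

end tall

theorem Tall.ex {k r : Cardinal.{u}} (h : Tall k r) : ∃ U : Ultrafilter (r.out → k.out),
    Cp U ∧ ∀ i j, i ≠ j → {f | f i ≠ f j} ∈ U := by
  obtain ⟨U, h1, h2⟩ := h
  refine ⟨U, fun a ha => ?_, h2⟩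
  rw [mk_out] at ha ⊢
  exact h1 a ha

theorem Tall.strong {k r : Cardinal.{u}} (h : Tall k r) (h0 : ℵ₀ < k) (hr : k < r) :
    ∀ c < k, 2 ^ c < k := by
  obtain ⟨U, h1, h2⟩ := h.ex
  intro c hc
  have := h1.strong h2 (c := c)
  simp only [mk_out] at this
  exact this h0 hr hc

/-- A tall cardinal brings the bound down. -/
theorem compress {k r n t b : Cardinal.{u}} (h : Tall k r) (h0 : ℵ₀ < k)
    (hs : ∀ c < k, 2 ^ c < k) (hn : n < k) (ht : t < k) (hr : Rel r n t b) : Rel k n t b := by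
  obtain ⟨U, h1, h2⟩ := h.ex
  rw [← mk_out k] at h0 hs hn ht
  refine rel_of k.out t.out (mk_out k).le (mk_out t).ge fun g => ?_
  obtain ⟨G, hG⟩ := h1.limit h0 g ((mk_set_le _).trans_lt ((mk_out t).trans_lt ht))
  obtain ⟨z1, a1, a2⟩ := hr _ _ (mk_out r).ge (mk_out t).le G
  obtain ⟨z, a3, a4⟩ := le_mk_iff_exists_subset.1 a1
  obtain ⟨f, b1, b2⟩ := ((h1.inj h2 h0 (a4.trans_lt hn)).and
    (h1.sub h0 hs (a4.trans_lt hn) hG)).exists
  refine ⟨f '' z, (a4.symm.trans (mk_image_eq_of_injOn _ _ b1).symm).le, lt_of_le_of_lt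
    (mk_le_mk_of_subset (b2.trans (image_mono fun x hx i => a3 (hx i)))) a2⟩

/-- `l` is a limit of cardinals that are tall below `l`. -/
def TL (l : Cardinal.{u}) : Prop := ∀ n < l, ∃ k, n < k ∧ k < l ∧ ∀ r < l, Tall k r

theorem TL.ex {l : Cardinal.{u}} (h : TL l) (h0 : ℵ₀ < l) {n : Cardinal.{u}} (hn : n < l) :
    ∃ k, n < k ∧ ℵ₀ < k ∧ k < l ∧ (∀ c < k, 2 ^ c < k) ∧ ∀ r < l, Tall k r := by
  obtain ⟨k, a1, a2, a3⟩ := h _ (max_lt hn h0)
  obtain ⟨r, b1, b2, -⟩ := h k a2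
  obtain ⟨c1, c2⟩ := max_lt_iff.1 a1
  exact ⟨k, c1, c2, a2, (a3 r b2).strong c2 b1, a3⟩

theorem TL.strong {l : Cardinal.{u}} (h : TL l) (h0 : ℵ₀ < l) : ∀ c < l, 2 ^ c < l := fun c hc =>
  let ⟨_, a1, _, a3, a4, _⟩ := h.ex h0 hc
  (a4 c a1).trans a3

theorem all_rel {l b : Cardinal.{u}} (h : TL l) (h0 : ℵ₀ < l)
    (h2 : ∀ n < l, ∀ t, b ≤ t → ∃ r < l, Rel r n t t) :
    ∀ t < l, ∀ n < l, ∃ r < l, Rel r n t b := by
  intro t
  induction t using WellFoundedLT.induction with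
  | ind t ih =>
  intro ht n hn
  rcases lt_trichotomy t b with c | rfl | c
  · exact ⟨n, hn, fun Y C a1 a2 g => ⟨Set.univ, mk_univ.symm ▸ a1,
      ((mk_set_le _).trans a2).trans_lt c⟩⟩
  · exact h2 n hn t le_rfl
  obtain ⟨k, a1, a2, a3, a4, a5⟩ := h.ex h0 (max_lt ht hn)
  obtain ⟨a6, a7⟩ := max_lt_iff.1 a1
  obtain ⟨r, b1, b2⟩ := h2 k a3 t c.le
  refine ⟨r, b1, fun Y C c1 c2 g => ?_⟩
  obtain ⟨z, d1, d2⟩ := b2 Y C c1 c2 g
  obtain ⟨r', e1, e2⟩ := ih _ d2 (d2.trans ht) n hn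
  obtain ⟨z', f1, f2⟩ := compress (a5 r' e1) a2 a4 a7 (d2.trans a6) e2 z (g '' Sq z) d1 le_rfl
    fun x => ⟨g (Subtype.val ∘ x), _, fun i => (x i).2, rfl⟩
  refine ⟨Subtype.val '' z', (mk_image_eq Subtype.val_injective).symm ▸ f1, ?_⟩
  rw [← mk_image_eq Subtype.val_injective, image_image] at f2
  rwa [img_sq]

end Pool.Agent.P.MP_2bb7c6_lc
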