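import Pool.Agent.P.MP_2bb7c6_lc.B

/-! The fusion argument. -/

set_option autoImplicit false

namespace Pool.Agent.P.MP_2bb7c6_lc

open Cardinal Set Filter

universe u

variable {X : Type u} [LinearOrder X]

theorem level (hX : ∀ c : X, #(Iic c) < #X) (h0 : ℵ₀ < #X) (h : TL #X) {b : Cardinal.{u}}
    (hr : ∀ t < #X, ∀ n < #X, ∃ r < #X, Rel r n t b) {m : Cardinal.{u}} (hm : m < #X) (c : X) :
    ∃ (k : Cardinal.{u}) (c' : X) (V : Ultrafilter (Set X)), m < k ∧ ℵ₀ < k ∧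
      (∀ d < k, 2 ^ d < k) ∧ CardinalInterFilter (V : Filter (Set X)) k ∧
      (∀ᶠ z : Set X in V, z ⊆ Ioc c c' ∧ m ≤ #z) ∧
      ∀ C : Type u, #C < k → ∀ g : (ℕ → X) → C,
        ∃ S : Set C, #S < b ∧ ∀ᶠ z : Set X in V, g '' Sq z ⊆ S := by
  obtain ⟨k, a1, a2, a3, a4, a5⟩ := h.ex h0 hm
  have hs := h.strong h0
  obtain ⟨c', hc'⟩ := seg hX h0 (A := Set.univ) mk_univ a3 c
  obtain ⟨E0⟩ := (Cardinal.le_def _ _).1 ((mk_out k).le.trans hc')
  have hE : Function.Injective fun i => (E0 i).1 := Subtype.val_injective.comp E0.injective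
  let Γ := {g : (ℕ → k.out) → k.out // #(range g) < #k.out}
  have hΓ : #(Γ → k.out) < #X := by
    have b1 : #k.out < #X := (mk_out k).trans_lt a3
    have b2 : #(ℕ → k.out) < #X := mk_seq _ ▸ pow_lt h0 hs b1 h0
    exact pow_lt h0 hs b1 ((mk_subtype_le _).trans_lt (pow_lt h0 hs b1 b2))
  obtain ⟨r, b1, b2⟩ := hr _ hΓ m hm
  obtain ⟨U, h1, h2⟩ := (a5 r b1).ex
  have a1' := a1
  have a2' := a2
  have a4' := a4
  rw [← mk_out k] at a1' a2' a4'
  choose G hG using fun γ : Γ => h1.limit a2' γ.1 γ.2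
  obtain ⟨z1, c1, c2⟩ := b2 _ _ (mk_out r).ge le_rfl fun x γ => G γ x
  obtain ⟨z, c3, c4⟩ := le_mk_iff_exists_subset.1 c1
  have c5 : #z < #k.out := c4.trans_lt a1'
  have e : ∀ f : r.out → k.out,
      (range fun i : z => (E0 (f i)).1) = (fun i => (E0 i).1) '' (f '' z) := fun f => by
    rw [image_image, image_eq_range]
  refine ⟨k, c', (U.map fun f (i : z) => f i).map fun f => range fun i => (E0 (f i)).1,
    a1, a2, a4, ?_, ?_, fun C hC g => ?_⟩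
  · have := h1 z c5
    rw [mk_out] at this
    exact inferInstanceAs (CardinalInterFilter (Filter.map _ (Filter.map _ _)) k)
  · refine (h1.inj h2 a2' c5).mono fun f hf => ⟨?_, ?_⟩
    · rintro _ ⟨i, rfl⟩
      exact (E0 _).2.2
    · change m ≤ #(range fun i : z => (E0 (f i)).1)
      rw [e, mk_image_eq hE, mk_image_eq_of_injOn _ _ hf, c4]
  · obtain ⟨j⟩ := (Cardinal.le_def _ _).1 (hC.le.trans (mk_out k).ge)
    let γ : Γ := ⟨fun y => j (g ((fun i => (E0 i).1) ∘ y)), by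
      refine lt_of_le_of_lt ?_ (hC.trans_eq (mk_out k).symm)
      refine (mk_le_mk_of_subset (t := range j) ?_).trans mk_range_le
      rintro _ ⟨y, rfl⟩
      exact ⟨_, rfl⟩⟩
    refine ⟨j ⁻¹' (G γ '' Sq z), (mk_preimage_of_injective _ _ j.injective).trans_lt ?_,
      (h1.sub a2' a4' c5 (hG γ)).mono fun f hf => ?_⟩
    · refine lt_of_le_of_lt ?_ c2
      refine (mk_le_mk_of_subset (t := (fun φ : Γ → k.out => φ γ) ''
        ((fun x γ => G γ x) '' Sq z1)) ?_).trans mk_image_le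
      rintro _ ⟨x, hx, rfl⟩
      exact ⟨_, ⟨x, fun i => c3 (hx i), rfl⟩, rfl⟩
    · change g '' Sq (range fun i : z => (E0 (f i)).1) ⊆ _
      rw [e, img_sq]
      rintro _ ⟨y, hy, rfl⟩
      exact hf ⟨y, hy, rfl⟩

/-- Closure under small unions. -/
def Reg (b : Cardinal.{u}) : Prop := ∀ (ι C : Type u) (Y : ι → Set C), #ι < b →
  (∀ i, #(Y i) < b) → #(⋃ i, Y i) < b

theorem descend {b : Cardinal.{u}} (hb : Reg b) (hc : 𝔠 < b) {C : Type u} (c : ℕ → X)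
    (hm : Monotone c) (k : ℕ → Cardinal.{u}) (V : ℕ → Ultrafilter (Set X))
    (k1 : ∀ i, #(Iic (c i)) < k i) (k2 : ∀ i, #C < k i) (k3 : ∀ i, b < k i)
    (k4 : ∀ i, ∀ d < k i, 2 ^ d < k i)
    (v1 : ∀ i, CardinalInterFilter (V i : Filter (Set X)) (k i))
    (v2 : ∀ i, ∀ᶠ z : Set X in V i, z ⊆ Iic (c (i + 1)) ∧ z.Nonempty)
    (v3 : ∀ i, ∀ D : Type u, #D < k i → ∀ g : (ℕ → X) → D,
      ∃ S : Set D, #S < b ∧ ∀ᶠ z : Set X in V i, g '' Sq z ⊆ S) (n : ℕ) :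
    ∀ h : (ℕ → X) → C, ∃ Z : ℕ → Set (Set X), (∀ i, Z i ∈ V i) ∧ ∃ Y : Set C, #Y < b ∧
      ∀ z : ℕ → Set X, (∀ i, z i ∈ Z i) → ∀ x : ℕ → X,
        (∀ j, x j = c 0 ∨ ∃ i < n, x j ∈ z i) → h x ∈ Y := by
  classical
  have h0 : ℵ₀ < b := aleph0_lt_continuum.trans hc
  induction n with
  | zero =>
    refine fun h => ⟨fun _ => Set.univ, fun _ => univ_mem, {h fun _ => c 0},
      by simpa using one_lt_aleph0.trans h0, fun z _ x hx => ?_⟩
    have : x = fun _ => c 0 := funext fun j => (hx j).resolve_right (by simp)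
    rw [this]
    rfl
  | succ n ih =>
    intro h
    have a0 : ℵ₀ < k n := h0.trans (k3 n)
    have a1 : #((ℕ → ℕ) × (ℕ → Iic (c n)) → C) < k n := by
      refine pow_lt (b := #((ℕ → ℕ) × (ℕ → Iic (c n)))) a0 (k4 n) (k2 n) ?_
      have := mul_lt_of_lt a0.le (hc.trans (k3 n)) (pow_lt a0 (k4 n) (k1 n) a0)
      simpa using this
    obtain ⟨S, a2, a3⟩ := v3 n _ a1 fun v p => h fun j => if p.1 j = 0 then (p.2 j).1 else v j
    choose Z b1 Y b2 b3 using fun q : S × (ℕ → ℕ) =>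
      ih fun u => q.1.1 (q.2, fun j => ⟨min (u j) (c n), min_le_right _ _⟩)
    have a4 : #(S × (ℕ → ℕ)) < b := by simpa using mul_lt_of_lt h0.le a2 hc
    refine ⟨fun i => (⋂ q, Z q i) ∩ {z | z ⊆ Iic (c (i + 1)) ∧ z.Nonempty} ∩ {z | i = n →
      (fun v p => h fun j => if p.1 j = 0 then (p.2 j).1 else v j) '' Sq z ⊆ S}, fun i => ?_,
      ⋃ q, Y q, hb _ _ _ a4 b2, fun z hz x hx => ?_⟩
    · have := v1 i
      refine inter_mem (inter_mem ((cardinal_iInter_mem (a4.trans (k3 i))).2 fun q => b1 q i)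
        (v2 i)) ?_
      by_cases e : i = n
      · subst e
        exact a3.mono fun z hz _ => hz
      · exact Eventually.of_forall fun z e' => absurd e' e
    · obtain ⟨p, hp⟩ := (hz n).1.2.2
      have c1 : ∀ j, x j ∉ z n → x j = c 0 ∨ ∃ i < n, x j ∈ z i := fun j hj =>
        (hx j).imp_right fun ⟨i, hi, hi'⟩ => ⟨i, lt_of_le_of_ne (Nat.lt_succ_iff.1 hi)
          (by rintro rfl; exact hj hi'), hi'⟩
      have c2 : (fun j => if x j ∈ z n then x j else p) ∈ Sq (z n) := fun j => by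
        by_cases e : x j ∈ z n
        · simp only [if_pos e]; exact e
        · simp only [if_neg e]; exact hp
      have c3 := b3 (⟨_, (hz n).2 rfl ⟨_, c2, rfl⟩⟩, fun j => if x j ∈ z n then 1 else 0) z
        (fun i => mem_iInter.1 (hz i).1.1 _) (fun j => if x j ∈ z n then c 0 else x j) fun j => by
          by_cases e : x j ∈ z n
          · exact Or.inl (if_pos e)
          · simp only [if_neg e]; exact c1 j e
      refine mem_iUnion.2 ⟨_, mem_of_eq_of_mem (Eq.symm ?_) c3⟩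
      refine congrArg h (funext fun j => ?_)
      by_cases e : x j ∈ z n
      · simp [e]
      · simp only [if_neg e, if_true]
        refine min_eq_left ?_
        rcases c1 j e with e' | ⟨i, hi, hi'⟩
        · exact e' ▸ hm (Nat.zero_le n)
        · exact ((hz i).1.2.1 hi').trans (hm hi)

theorem fusion (hX : ∀ c : X, #(Iic c) < #X) (h0 : ℵ₀ < #X) (h : TL #X) {b : Cardinal.{u}}
    (hb : Reg b) (hc : 𝔠 < b) (hbX : b < #X)
    (hr : ∀ t < #X, ∀ n < #X, ∃ r < #X, Rel r n t b) (s : ℕ → X) (hs : ∀ x, ∃ n, x ≤ s n)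
    {C : Type u} (hC : #C < #X) (f : Set X → C) :
    ∃ A : Set X, #A = #X ∧ #(f '' Bd A) < b := by
  choose k nx V a1 a2 a3 a4 a5 a6 using fun c : X =>
    level hX h0 h hr (max_lt (hX c) (max_lt hC hbX)) c
  let c : ℕ → X := fun n => Nat.rec (s 0) (fun n x => max (max x (nx x)) (s n)) n
  have hm : Monotone c := monotone_nat_of_le_succ fun n =>
    (le_max_left _ _).trans (le_max_left _ _)
  have c1 : ∀ n, nx (c n) ≤ c (n + 1) := fun n => (le_max_right _ _).trans (le_max_left _ _)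
  have c2 : ∀ x, ∃ n, x ≤ c n := fun x =>
    let ⟨n, hn⟩ := hs x
    ⟨n + 1, hn.trans (le_max_right _ _)⟩
  have b0 : ℵ₀ < b := aleph0_lt_continuum.trans hc
  choose Z d1 Y d2 d3 using fun n => descend hb hc c hm (fun i => k (c i)) (fun i => V (c i))
    (fun i => (max_lt_iff.1 (a1 _)).1) (fun i => (max_lt_iff.1 (max_lt_iff.1 (a1 _)).2).1)
    (fun i => (max_lt_iff.1 (max_lt_iff.1 (a1 _)).2).2) (fun i => a3 _) (fun i => a4 _)
    (fun i => (a5 _).mono fun z hz => ⟨fun x hx => (hz.1 hx).2.trans (c1 i),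
      nonempty_coe_sort.1 (mk_ne_zero_iff.1 ((aleph0_pos.trans b0).trans_le
        ((le_max_of_le_right (le_max_right _ _)).trans hz.2)).ne')⟩)
    (fun i => a6 _) n fun x => f (range x)
  have ex : ∀ i, ∃ z, (∀ n, z ∈ Z n i) ∧ z ⊆ Ioi (c i) ∧ #(Iic (c i)) ≤ #z := by
    intro i
    have := a4 (c i)
    have := CardinalInterFilter.toCountableInterFilter (V (c i) : Filter (Set X)) (a2 (c i))
    obtain ⟨z, e1, e2, e3⟩ := ((eventually_countable_forall.2 fun n => d1 n i).and (a5 (c i))).exists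
    exact ⟨z, e1, fun x hx => (e2 hx).1, (le_max_left _ _).trans e3⟩
  choose z e1 e2 e3 using ex
  refine ⟨⋃ i, z i, le_antisymm (mk_set_le _) (not_lt.1 fun hlt => ?_), ?_⟩
  · have g1 : (Set.univ : Set X) ⊆ ⋃ i : ULift.{u} ℕ, Iic (c i.down) := fun x _ =>
      let ⟨n, hn⟩ := c2 x
      mem_iUnion.2 ⟨⟨n⟩, hn⟩
    have g2 := (mk_le_mk_of_subset g1).trans ((mk_iUnion_le _).trans (mul_le_mul_right
      (ciSup_le' fun i => (e3 _).trans (mk_le_mk_of_subset (subset_iUnion z _))) _))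
    rw [mk_univ] at g2
    exact g2.not_gt (mul_lt_of_lt h0.le (by simpa using h0) hlt)
  · have g1 : f '' Bd (⋃ i, z i) ⊆ insert (f ∅) (⋃ n : ULift.{u} ℕ, Y n.down) := by
      rintro _ ⟨S, ⟨g1, g2, p, hp⟩, rfl⟩
      rcases S.eq_empty_or_nonempty with rfl | hne
      · exact Or.inl rfl
      obtain ⟨x, rfl⟩ := g2.exists_eq_range hne
      obtain ⟨n, hn⟩ := c2 p
      refine Or.inr (mem_iUnion.2 ⟨⟨n⟩, d3 n z (fun i => e1 i n) x fun j => Or.inr ?_⟩)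
      obtain ⟨i, hi⟩ := mem_iUnion.1 (g1 ⟨j, rfl⟩)
      exact ⟨i, not_le.1 fun e => ((hp ⟨j, rfl⟩).trans (hn.trans (hm e))).not_gt (e2 i hi), hi⟩
    refine (mk_le_mk_of_subset g1).trans_lt (mk_insert_le.trans_lt (add_lt_of_lt b0.le
      (hb _ _ _ (by simpa using b0) fun n => d2 _) (one_lt_aleph0.trans b0)))

theorem SO.mono {B C : Type u} [Nonempty B] (h : SO X (Set.univ : Set B)) (hC : #B ≤ #C) :
    SO X (Set.univ : Set C) := by
  intro F
  obtain ⟨p, hp⟩ := ex_surj (B' := (Set.univ : Set B)) univ_nonempty (mk_univ.trans_le hC)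
  obtain ⟨A, hA, b, -, hb⟩ := h fun r x => p (F r x)
  obtain ⟨t, rfl⟩ := hp b trivial
  exact ⟨A, hA, t, trivial, fun r x h1 h2 e => hb r x h1 h2 (congrArg p e)⟩

theorem reg_of {b : Cardinal.{u}} (h0 : b ≠ 0) (h : SO X (Set.univ : Set b.out))
    (hmin : ∀ B : Type u, Nonempty B → #B < b → ¬ SO X (Set.univ : Set B)) : Reg b := by
  intro ι C Y h1 h2
  by_contra hc
  have : Nonempty b.out := mk_ne_zero_iff.1 ((mk_out b).symm ▸ h0)
  have h3 := h.mono ((mk_out b).le.trans (not_lt.1 hc))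
  obtain ⟨⟨y, hy⟩⟩ := mk_ne_zero_iff.1 ((pos_iff_ne_zero.2 h0).trans_le (not_lt.1 hc)).ne'
  obtain ⟨i0, hi0⟩ := mem_iUnion.1 hy
  have h4 := hmin {i // (Y i).Nonempty} ⟨⟨i0, y, hi0⟩⟩ ((mk_subtype_le _).trans_lt h1)
  have h5 := fun i : {i // (Y i).Nonempty} => hmin (Y i.1) i.2.to_subtype (h2 _)
  simp only [SO, not_forall, not_exists, not_and, ne_eq, not_not] at h4 h5
  obtain ⟨F, hF⟩ := h4
  choose G hG using h5
  obtain ⟨A, hA, ⟨t, ht⟩, -, h6⟩ := h3 fun r x =>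
    ⟨(G (F (fun n => r (2 * n)) fun n => x (2 * n)) (fun n => r (2 * n + 1))
      fun n => x (2 * n + 1)).1, mem_iUnion.2 ⟨_, Subtype.prop _⟩⟩
  obtain ⟨i, hi⟩ := mem_iUnion.1 ht
  obtain ⟨r1, x1, a1, ⟨p1, a2⟩, a3⟩ := hF A hA ⟨i, t, hi⟩ trivial
  obtain ⟨r2, x2, b1, ⟨p2, b2⟩, b3⟩ := hG ⟨i, t, hi⟩ A hA ⟨t, hi⟩ trivial
  have e1 : ∀ n, 2 * n % 2 = 0 := fun n => by omega
  have e2 : ∀ n, ¬ (2 * n + 1) % 2 = 0 := fun n => by omega
  have e3 : ∀ n, 2 * n / 2 = n := fun n => by omega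
  have e4 : ∀ n, (2 * n + 1) / 2 = n := fun n => by omega
  refine h6 (fun n => if n % 2 = 0 then r1 (n / 2) else r2 (n / 2))
    (fun n => if n % 2 = 0 then x1 (n / 2) else x2 (n / 2)) (fun n => ?_) ⟨max p1 p2, ?_⟩
    (Subtype.ext ?_)
  · split_ifs
    exacts [a1 _, b1 _]
  · rintro _ ⟨n, rfl⟩
    dsimp only
    split_ifs
    exacts [le_max_of_le_left (a2 ⟨_, rfl⟩), le_max_of_le_right (b2 ⟨_, rfl⟩)]
  · simp only [e2, e4, if_false]
    have : ∀ j, j = ⟨i, t, hi⟩ → (G j r2 x2).1 = t := by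
      rintro _ rfl
      rw [b3]
    refine this _ ?_
    simp only [e1, e3, if_true]
    exact a3

theorem main [WellFoundedLT X] (hX : ∀ c : X, #(Iic c) < #X) (h0 : ℵ₀ < #X) (h : TL #X)
    {B : Type u} [Nonempty B] (hB : #B < #X)
    (ho : ∀ f : Set X → B, ∃ A : Set X, #A = #X ∧ f '' Bd A ≠ Set.univ)
    {C : Type u} (hC : #C < #X) (f : Set X → C) :
    ∃ A : Set X, #A = #X ∧ #(f '' Bd A) < #B := by
  have h1 := dec hX h0 ho
  have : Nonempty X := mk_ne_zero_iff.1 (aleph0_pos.trans h0).ne'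
  have h2 : ∀ (D : Type u), Nonempty D → SO X (Set.univ : Set D) →
      #D ∈ {b : Cardinal.{u} | b ≠ 0 ∧ SO X (Set.univ : Set b.out)} := fun D _ hD =>
    ⟨mk_ne_zero D, hD.mono (mk_out _).ge⟩
  obtain ⟨b, ⟨b1, b2⟩, b3⟩ := wellFounded_lt.has_min _ ⟨_, h2 B ‹_› h1⟩
  have b4 : b ≤ #B := not_lt.1 (b3 _ (h2 B ‹_› h1))
  have : Nonempty b.out := mk_ne_zero_iff.1 ((mk_out b).symm ▸ b1)
  have b5 : 𝔠 < b := by
    by_contra hc
    obtain ⟨A, hA, r, -, hr⟩ := b2.mono (C := ULift.{u} (ℕ → ℕ))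
      (by simpa using hc) fun r _ => ⟨r⟩
    obtain ⟨⟨x, hx⟩⟩ := mk_ne_zero_iff.1 (hA ▸ (aleph0_pos.trans h0).ne' : #A ≠ 0)
    exact hr r.down (fun _ => x) (fun _ => hx) ⟨x, by rintro _ ⟨_, rfl⟩; exact le_rfl⟩ rfl
  obtain ⟨s, hs⟩ : ∃ s : ℕ → X, ∀ x, ∃ n, x ≤ s n := by
    by_contra hc
    push Not at hc
    obtain ⟨J, hJ⟩ := jon X
    obtain ⟨A, hA, t, -, ht⟩ := h1.mono hB.le fun r x => J (r 0) x
    obtain ⟨n, x, hx, e⟩ := hJ A hA t
    obtain ⟨p, hp⟩ := hc x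
    exact ht (fun _ => n) x hx ⟨p, by rintro _ ⟨m, rfl⟩; exact (hp m).le⟩ e
  obtain ⟨A, a1, a2⟩ := fusion hX h0 h (reg_of b1 b2 fun D hD hlt hso => b3 _ (h2 D hD hso) hlt) b5
    (b4.trans_lt hB) (all_rel h h0 fun n hn t ht =>
      step2 hX h0 b2 hn ((mk_univ.trans (mk_out b)).trans_le ht)) s hs hC f
  exact ⟨A, a1, a2.trans_le b4⟩

end Pool.Agent.P.MP_2bb7c6_lc
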