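import Mathlib

/-! Square bracket relations for bounded countable sets, tall cardinals. -/

set_option autoImplicit false

namespace Pool.Agent.P.MP_2bb7c6_lc

open Cardinal Set

universe u

/-- The countable subsets of `A` that are bounded in `X`. -/
def Bd {X : Type u} [LinearOrder X] (A : Set X) : Set (Set X) :=
  {x | x ⊆ A ∧ x.Countable ∧ BddAbove x}

/-- `l → [l]_a` for bounded countable sets: one of the `a` colours is omitted. -/
def Omit (l a : Cardinal.{u}) : Prop :=
  ∀ f : Set l.ord.ToType → a.out, ∃ A : Set l.ord.ToType, #A = l ∧ f '' Bd A ≠ Set.univ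

/-- `l → [l]_(t, < a)` for bounded countable sets: fewer than `a` of the `t` colours occur. -/
def Few (l t a : Cardinal.{u}) : Prop :=
  ∀ f : Set l.ord.ToType → t.out, ∃ A : Set l.ord.ToType, #A = l ∧ #(f '' Bd A) < a

/-- An extender on `k` with `r` generators whose ultrapower is closed under sequences of length
less than `k`: an ultrafilter on the maps `r → k` whose projections to fewer than `k` coordinates
are `k`-complete and for which two different coordinates differ almost everywhere. -/
def Tall (k r : Cardinal.{u}) : Prop :=
  ∃ U : Ultrafilter (r.out → k.out),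
    (∀ a : Set r.out, #a < k →
      CardinalInterFilter (Filter.map (fun h (i : a) => h i) (U : Filter (r.out → k.out))) k) ∧
    ∀ i j, i ≠ j → {h | h i ≠ h j} ∈ U

end Pool.Agent.P.MP_2bb7c6_lc
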