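import Pool.Agent.P.MP_2bb7c6_lc.Defs

/-! Strongly compact cardinals are tall. -/

set_option autoImplicit false

namespace Pool.Agent.P.MP_2bb7c6_lc

open Cardinal Set Filter

universe u

/-- A `k`-complete fine ultrafilter on the subsets of `r` of size less than `k` gives `Tall k r`. -/
theorem tall_of_fine {k r : Cardinal.{u}} (U : Ultrafilter {s : Set r.out // #s < k})
    [CardinalInterFilter (U : Filter {s : Set r.out // #s < k}) k]
    (hU : ∀ i, {s | i ∈ s.1} ∈ U) : Tall k r := by
  obtain ⟨s0, -⟩ := U.nonempty_of_mem univ_mem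
  have : Nonempty k.out := mk_ne_zero_iff.1 ((mk_out k).symm ▸ (zero_le.trans_lt s0.2).ne')
  have ex : ∀ s : {s : Set r.out // #s < k}, ∃ e : r.out → k.out, InjOn e s.1 := fun s => by
    obtain ⟨e⟩ := (Cardinal.le_def _ _).1 (s.2.le.trans (mk_out k).ge)
    exact ⟨Subtype.val.extend e fun _ => Classical.arbitrary _, fun i hi j hj h => by
      rw [Subtype.val_injective.extend_apply _ _ (⟨i, hi⟩ : s.1),
        Subtype.val_injective.extend_apply _ _ (⟨j, hj⟩ : s.1)] at h
      exact congrArg Subtype.val (e.injective h)⟩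
  choose e he using ex
  exact ⟨U.map e, fun a _ => inferInstanceAs (CardinalInterFilter (Filter.map _ (Filter.map _ _)) k),
    fun i j hij => Ultrafilter.mem_map.2 (mem_of_superset (inter_mem (hU i) (hU j))
      fun s hs h => hij (he s hs.1 hs.2 h))⟩

end Pool.Agent.P.MP_2bb7c6_lc
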